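import Mathlib

/-! # Monoids from pre-upho colorings need not have greatest common left divisors (MP_4cc90a_co)

We exhibit a finite graded lattice of rank four with 22 elements and 7 atoms, whose top is the join
of its atoms, and a pre-upho coloring of it, for which two elements of the monoid `M` have no
greatest common left divisor. -/

namespace Pool.Agent.Results.MP_4cc90a_co.NoGcd

/-- The atoms of `L`. -/
abbrev Atoms (L : Type) [Lattice L] [BoundedOrder L] : Type := {s : L // IsAtom s}

/-- An assignment of an atom to every cover relation `x ⋖ y` of `L`. -/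
abbrev Coloring (L : Type) [Lattice L] [BoundedOrder L] : Type :=
  (x y : L) → x ⋖ y → Atoms L

/-- `rk` is the rank function of the graded lattice `L`. -/
def IsRank {L : Type} [Lattice L] [BoundedOrder L] (rk : L → ℕ) : Prop :=
  rk ⊥ = 0 ∧ ∀ x y : L, x ⋖ y → rk y = rk x + 1

/-- `⊤` is the join of the atoms of `L`. -/
def TopIsJoinOfAtoms (L : Type) [Lattice L] [BoundedOrder L] : Prop :=
  IsLUB {s : L | IsAtom s} ⊤

/-- Pre-upho colorings: atoms color their own covers, and for every `x ≠ ⊥, ⊤`, with `z` the join
of the upper covers of `x`, there is a rank- and color-preserving embedding of the interval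
`[x, z]` into `L` (an order isomorphism of `[x, z]` onto its image). -/
def IsPreUpho {L : Type} [Lattice L] [BoundedOrder L] (rk : L → ℕ) (c : Coloring L) : Prop :=
  (∀ (s : Atoms L) (h : ⊥ ⋖ s.1), c ⊥ s.1 h = s) ∧
  ∀ x : L, x ≠ ⊥ → x ≠ ⊤ → ∀ z : L, IsLUB {y | x ⋖ y} z →
    ∃ φ : Set.Icc x z ↪o L, (∀ u : Set.Icc x z, rk (φ u) + rk x = rk (u : L)) ∧
      ∀ (u v : Set.Icc x z) (h : (u : L) ⋖ (v : L)),
        ∃ h' : φ u ⋖ φ v, c (φ u) (φ v) h' = c u v h

/-- `ChainWord c x y w`: the word `w` is the sequence of colors along some saturated chain from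
`x` to `y`. -/
inductive ChainWord {L : Type} [Lattice L] [BoundedOrder L] (c : Coloring L) :
    L → L → List (Atoms L) → Prop
  | nil (x : L) : ChainWord c x x []
  | cons {x y z : L} {w : List (Atoms L)} (h : x ⋖ y) (hw : ChainWord c y z w) :
      ChainWord c x z (c x y h :: w)

/-- The defining relations of the monoid: for two atoms `s`, `t`, the color word of a saturated
chain `⊥ ⋖ s ⋖ ⋯ ⋖ s ⊔ t` equals the color word of a saturated chain `⊥ ⋖ t ⋖ ⋯ ⋖ s ⊔ t`. -/
inductive Rel {L : Type} [Lattice L] [BoundedOrder L] (c : Coloring L) :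
    FreeMonoid (Atoms L) → FreeMonoid (Atoms L) → Prop
  | mk (s t : Atoms L) (hs : ⊥ ⋖ s.1) (ht : ⊥ ⋖ t.1) (u v : List (Atoms L))
      (hu : ChainWord c s.1 (s.1 ⊔ t.1) u) (hv : ChainWord c t.1 (s.1 ⊔ t.1) v) :
      Rel c (FreeMonoid.ofList (c ⊥ s.1 hs :: u)) (FreeMonoid.ofList (c ⊥ t.1 ht :: v))

/-- The monoid `M` generated by the atoms with these relations. -/
abbrev M {L : Type} [Lattice L] [BoundedOrder L] (c : Coloring L) : Type :=
  PresentedMonoid (Rel c)

/-- `d ≤_L v`: `d` is a left divisor of `v`. -/
def LeftDvd {N : Type} [Monoid N] (d v : N) : Prop := ∃ w : N, v = d * w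

/-- `d` is a greatest common left divisor of `u` and `v`. -/
def IsGCLD {N : Type} [Monoid N] (u v d : N) : Prop :=
  LeftDvd d u ∧ LeftDvd d v ∧ ∀ d' : N, LeftDvd d' u → LeftDvd d' v → LeftDvd d' d

/-! ## The lattice -/

/-- The 22 elements. -/
structure Q where
  /-- the index -/
  i : Fin 22
  deriving DecidableEq

/-- bit table of the order -/
def leT : ℕ := 24973997333923956504455254553708380475711736278452887462496432266446690513617111493288115492964601263385943967436531801267733163824481486403272703
/-- table of joins -/
def supT : ℕ := 210594540250795430685199778784719815098791582090502088322115276666437688767243377580045463997987466731681591496392410765038617612220437941774303927983982089978331738241710951909736165498083629974185245813790242262549912246983376535562807022330410227231926999117242996885621697024978686608708030294608028104470410916443009334739489689471107506971722004994636684720409972155082570038400495543514765285832604635954409793353164392545537478582297246127549313816826933542763857182083277755931483380872573973017420610244683479980871502556631266764148267175522209234508784232721149483867762646387658377652954403475208316230121258262874807806223861041595765885563840332401244835514060931038221481298448910120395145725653819753727116019744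
/-- table of meets -/
def infT : ℕ := 210271046333359493003655693103023019425445467846236316766272824484325776575031077047895637795472834561221244707184399101685313563329153011194691611235680040163332248179545776983009314078103406930060258445381855719256995895533011488454440123126842811739919063659767325537816663409529740793620513061678445560655612381822910138807014987641851476205721737704400494154999670887426909978501721042078144942921970990935582086701277072985701514121902738041965609225964834239827429288002823184464019439179408751016985303162606598690829204577759676891219189598389658326269724640947213431855704410180491367488342347341160746555359895002770285645057941861614824746149342872332259886163688862337384246522735846315299608082499002243782465814528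
/-- table of colors -/
def colT : ℕ := 10028311440514068127866656132605750396675712727467602648331099525963300168659461916082132931694745599888214837163396446142215760249111796884493115725768809541237938742418191775279413158328212269883907397052359372465375900330668974927881708748979791400524583099851437940362991569440688390856195104076165152769327710812977867532432586518882154265570749602072766966545724636618230256521888353806770603849078166145101725664758197736351114503410880092255713142910766398037321129208310095242866590363555421056197719309235084257379112164791836028408088857981570764444778829085793403832328248980343389075687747035221616860981155079994071692397748395470609667706520538997686595489545731532451119519073525565152843560476795717781089781793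
/-- table of embeddings -/
def embT : ℕ := 52388751112489868053151996829536554787988810167126865273558333687319811154223148555737092328631073096409969536076647451217818830216379373780786770974767253168478915991768327324661586704625441991533002362013619044746478338816125065395249148315407589389593758132910887615954986575840939201605569410704968346411083988777121421735192182841605124928796364989548978054389113331743259328303123647059569130980761232433408233019953195412825548901488068699258254057071877236810293127430272715922835048538370072916974610725686422307288669026730891025821475430913379384985745611146039040444305119135508273253649374553356454170076009862830122893142235587772021561205211663422624150297051227813196048967401472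
/-- table of joins of upper covers -/
def joinT : ℕ := 27479393617524635786433166759584
/-- table of ranks -/
def rkT : ℕ := 166184904455438660260221714203680

/-- order as a Boolean -/
def leB (i j : Fin 22) : Bool := Nat.testBit leT (22 * i.val + j.val)
/-- look up in a table of joins etc. -/
def look (T : ℕ) (i j : Fin 22) : Fin 22 := Fin.ofNat 22 ((T >>> (5 * (22 * i.val + j.val))) &&& 31)
/-- look up in a table with one argument -/
def look1 (T : ℕ) (i : Fin 22) : Fin 22 := Fin.ofNat 22 ((T >>> (5 * i.val)) &&& 31)

theorem leB_refl : ∀ i : Fin 22, leB i i = true := by decide +kernel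
theorem leB_antisymm : ∀ i j : Fin 22, leB i j = true → leB j i = true → i = j := by
  decide +kernel
theorem leB_trans : ∀ i j k : Fin 22, leB i j = true → leB j k = true → leB i k = true := by
  decide +kernel
theorem leB_sup_left : ∀ i j : Fin 22, leB i (look supT i j) = true := by decide +kernel
theorem leB_sup_right : ∀ i j : Fin 22, leB j (look supT i j) = true := by decide +kernel
theorem leB_sup : ∀ i j k : Fin 22, leB i k = true → leB j k = true →
    leB (look supT i j) k = true := by decide +kernel
theorem leB_inf_left : ∀ i j : Fin 22, leB (look infT i j) i = true := by decide +kernel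
theorem leB_inf_right : ∀ i j : Fin 22, leB (look infT i j) j = true := by decide +kernel
theorem leB_inf : ∀ i j k : Fin 22, leB i j = true → leB i k = true →
    leB i (look infT j k) = true := by decide +kernel
theorem leB_bot : ∀ i : Fin 22, leB 0 i = true := by decide +kernel
theorem leB_top : ∀ i : Fin 22, leB i 21 = true := by decide +kernel

instance : Fintype Q := Fintype.ofEquiv (Fin 22) ⟨Q.mk, Q.i, fun _ => rfl, fun _ => rfl⟩

instance : PartialOrder Q where
  le a b := leB a.i b.i = true
  le_refl a := leB_refl a.i
  le_trans a b c := leB_trans a.i b.i c.i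
  le_antisymm a b h h' := by
    cases a; cases b
    exact congrArg Q.mk (leB_antisymm _ _ h h')

instance : Lattice Q where
  sup a b := ⟨look supT a.i b.i⟩
  inf a b := ⟨look infT a.i b.i⟩
  le_sup_left a b := leB_sup_left a.i b.i
  le_sup_right a b := leB_sup_right a.i b.i
  sup_le a b c := leB_sup a.i b.i c.i
  inf_le_left a b := leB_inf_left a.i b.i
  inf_le_right a b := leB_inf_right a.i b.i
  le_inf a b c := leB_inf a.i b.i c.i

instance : BoundedOrder Q where
  top := ⟨21⟩
  le_top a := leB_top a.i
  bot := ⟨0⟩
  bot_le a := leB_bot a.i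

theorem le_def (a b : Q) : a ≤ b ↔ leB a.i b.i = true := Iff.rfl

theorem lt_def (a b : Q) : a < b ↔ leB a.i b.i = true ∧ a.i ≠ b.i := by
  rw [lt_iff_le_and_ne, le_def]
  refine and_congr_right fun _ => not_congr ⟨fun h => by rw [h], fun h => ?_⟩
  cases a; cases b; exact congrArg Q.mk h

/-- the rank of an index -/
def rkF (i : Fin 22) : ℕ := (look1 rkT i).val

/-- the cover relation as a Boolean -/
def covB (i j : Fin 22) : Bool := leB i j && (rkF j == rkF i + 1)

theorem covB_iff : ∀ i j : Fin 22, covB i j = true ↔
    ((leB i j = true ∧ i ≠ j) ∧ ∀ k : Fin 22, leB i k = true → i ≠ k → leB k j = true →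
      k = j) := by
  decide +kernel

theorem cov_iff (a b : Q) : a ⋖ b ↔ covB a.i b.i = true := by
  rw [covB_iff]
  constructor
  · rintro ⟨h1, h2⟩
    refine ⟨(lt_def a b).1 h1, fun k hk hk' hk'' => ?_⟩
    by_contra hne
    exact h2 (c := ⟨k⟩) ((lt_def _ _).2 ⟨hk, hk'⟩) ((lt_def _ _).2 ⟨hk'', hne⟩)
  · rintro ⟨h1, h2⟩
    refine ⟨(lt_def a b).2 h1, fun {k} hk hk' => ?_⟩
    obtain ⟨h3, h4⟩ := (lt_def _ _).1 hk
    obtain ⟨h5, h6⟩ := (lt_def _ _).1 hk'
    exact h6 (h2 k.i h3 h4 h5)

theorem atom_iff (a : Q) : IsAtom a ↔ covB 0 a.i = true := by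
  rw [← bot_covBy_iff, cov_iff]; rfl

theorem col_atom : ∀ i j : Fin 22, covB 0 (look colT i j) = true := by decide +kernel

/-- the coloring -/
def col : Coloring Q := fun x y _ => ⟨⟨look colT x.i y.i⟩, (atom_iff _).2 (col_atom _ _)⟩

/-- the rank function -/
def rk (a : Q) : ℕ := rkF a.i

theorem isRank : IsRank rk := by
  refine ⟨by decide +kernel, fun x y h => ?_⟩
  rw [cov_iff] at h
  unfold covB at h
  rw [Bool.and_eq_true] at h
  exact beq_iff_eq.1 h.2

theorem top_join_table : ∀ k : Fin 22, (∀ i : Fin 22, covB 0 i = true → leB i k = true) →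
    leB 21 k = true := by decide +kernel

theorem topIsJoin : TopIsJoinOfAtoms Q := by
  refine ⟨fun s _ => le_top, fun u hu => ?_⟩
  exact top_join_table u.i fun i hi => hu (a := (⟨i⟩ : Q)) ((atom_iff _).2 hi)

theorem color_atoms_table : ∀ i : Fin 22, covB 0 i = true → look colT 0 i = i := by
  decide +kernel

theorem join_table : ∀ i : Fin 22, i ≠ 0 → i ≠ 21 →
    (∀ j : Fin 22, covB i j = true → leB j (look1 joinT i) = true) ∧
    (∀ k : Fin 22, (∀ j : Fin 22, covB i j = true → leB j k = true) →
      leB (look1 joinT i) k = true) := by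
  decide +kernel

theorem emb_table : ∀ i : Fin 22, i ≠ 0 → i ≠ 21 → ∀ u : Fin 22, leB i u = true →
    leB u (look1 joinT i) = true → ∀ v : Fin 22, leB i v = true →
    leB v (look1 joinT i) = true → leB (look embT i u) (look embT i v) = leB u v := by
  decide +kernel

theorem rank_table : ∀ i : Fin 22, i ≠ 0 → i ≠ 21 → ∀ u : Fin 22, leB i u = true →
    leB u (look1 joinT i) = true → rkF (look embT i u) + rkF i = rkF u := by
  decide +kernel

theorem color_table : ∀ i : Fin 22, i ≠ 0 → i ≠ 21 → ∀ u : Fin 22, leB i u = true →
    leB u (look1 joinT i) = true → ∀ v : Fin 22, leB i v = true →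
    leB v (look1 joinT i) = true → covB u v = true →
    covB (look embT i u) (look embT i v) = true ∧
      look colT (look embT i u) (look embT i v) = look colT u v := by
  decide +kernel

theorem isPreUpho : IsPreUpho rk col := by
  refine ⟨fun s h => ?_, fun x hx hx' z hz => ?_⟩
  · apply Subtype.ext
    exact congrArg Q.mk (color_atoms_table s.1.i ((atom_iff _).1 s.2))
  · have h0 : x.i ≠ 0 := fun h => hx (congrArg Q.mk h)
    have h1 : x.i ≠ 21 := fun h => hx' (congrArg Q.mk h)
    have hj : IsLUB {y | x ⋖ y} (⟨look1 joinT x.i⟩ : Q) := by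
      obtain ⟨h2, h3⟩ := join_table x.i h0 h1
      refine ⟨fun y hy => h2 y.i ((cov_iff _ _).1 hy), fun u hu => ?_⟩
      exact h3 u.i fun j hj => hu (a := (⟨j⟩ : Q)) ((cov_iff _ _).2 hj)
    obtain rfl : z = ⟨look1 joinT x.i⟩ := hz.unique hj
    refine ⟨OrderEmbedding.ofMapLEIff (fun u => ⟨look embT x.i u.1.i⟩) fun u v => ?_, ?_, ?_⟩
    · have h2 := emb_table x.i h0 h1 u.1.i u.2.1 u.2.2 v.1.i v.2.1 v.2.2
      change leB (look embT x.i u.1.i) (look embT x.i v.1.i) = true ↔ leB u.1.i v.1.i = true
      rw [h2]
    · intro u
      exact rank_table x.i h0 h1 u.1.i u.2.1 u.2.2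
    · intro u v h
      obtain ⟨h2, h3⟩ := color_table x.i h0 h1 u.1.i u.2.1 u.2.2 v.1.i v.2.1 v.2.2
        ((cov_iff _ _).1 h)
      exact ⟨(cov_iff _ _).2 h2, Subtype.ext (congrArg Q.mk h3)⟩

/-! ## The monoid -/

/-- the color words of all saturated chains of length at most `n` starting at `i`, together with
their end points -/
def allWords : ℕ → Fin 22 → List (Fin 22 × List (Fin 22))
  | 0, i => [(i, [])]
  | n + 1, i => (i, []) :: ((List.finRange 22).filter (covB i)).flatMap
      (fun j => (allWords n j).map (fun p => (p.1, look colT i j :: p.2)))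

theorem rkF_le : ∀ i : Fin 22, rkF i ≤ 4 := by decide +kernel

/-- the letters of a word as indices -/
def ind (w : List (Atoms Q)) : List (Fin 22) := w.map fun s => s.1.i

theorem mem_allWords {x z : Q} {w : List (Atoms Q)} (h : ChainWord col x z w) :
    ∀ n, 4 ≤ n + rk x → (z.i, ind w) ∈ allWords n x.i := by
  induction h with
  | nil x =>
    intro n _
    cases n with
    | zero => exact List.mem_singleton.2 rfl
    | succ n => exact List.mem_cons.2 (Or.inl rfl)
  | @cons x y z w hxy hw ih =>
    intro n hn
    have h1 : rk y = rk x + 1 := isRank.2 _ _ hxy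
    have h2 : rk y ≤ 4 := rkF_le y.i
    cases n with
    | zero => omega
    | succ n =>
      refine List.mem_cons.2 (Or.inr ?_)
      refine List.mem_flatMap.2 ⟨y.i, List.mem_filter.2 ⟨List.mem_finRange _,
        (cov_iff _ _).1 hxy⟩, ?_⟩
      exact List.mem_map.2 ⟨_, ih n (by omega), rfl⟩

/-- a set of words is closed under replacing the factor `l` by `r` -/
def closedB (C : List (List (Fin 22))) (l r : List (Fin 22)) : Bool :=
  C.all fun g => (List.range (g.length + 1)).all fun a =>
    !(l.isPrefixOf (g.drop a)) || C.contains (g.take a ++ r ++ g.drop (a + l.length))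

theorem closedB_spec {C : List (List (Fin 22))} {l r : List (Fin 22)} (h : closedB C l r = true)
    (a b : List (Fin 22)) (hg : a ++ l ++ b ∈ C) : a ++ r ++ b ∈ C := by
  have h1 := List.all_eq_true.1 h _ hg
  have h2 := List.all_eq_true.1 h1 a.length (List.mem_range.2 (by simp))
  have h3 : (a ++ l ++ b).drop a.length = l ++ b := by simp
  have h4 : (a ++ l ++ b).take a.length = a := by simp
  have h5 : (a ++ l ++ b).drop (a.length + l.length) = b := by
    rw [← List.length_append]; exact List.drop_left
  rw [h3, h4, h5] at h2
  have h6 : l.isPrefixOf (l ++ b) = true := by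
    rw [List.isPrefixOf_iff_prefix]; exact List.prefix_append _ _
  rw [h6] at h2
  simpa using h2

/-- the five classes of words that are used -/
def classes : List (List (List (Fin 22))) :=
  [[[]], [[2]], [[3]], [[2, 7], [3, 7]], [[2, 6, 1], [1, 4, 1], [1, 5, 1], [3, 6, 1]]]

theorem closed_table : ∀ C ∈ classes, ∀ i : Fin 22, covB 0 i = true → ∀ j : Fin 22,
    covB 0 j = true → ∀ p ∈ allWords 3 i, p.1 = look supT i j → ∀ q ∈ allWords 3 j,
    q.1 = look supT i j → (closedB C (i :: p.2) (j :: q.2) = true ∧
      closedB C (j :: q.2) (i :: p.2) = true) := by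
  decide +kernel

/-- the congruence of a predicate on words -/
def conOf (P : FreeMonoid (Atoms Q) → Prop) : Con (FreeMonoid (Atoms Q)) where
  r u v := ∀ a b, P (a * u * b) ↔ P (a * v * b)
  iseqv := ⟨fun _ _ _ => Iff.rfl, fun h a b => (h a b).symm, fun h h' a b =>
    (h a b).trans (h' a b)⟩
  mul' := fun {w x y z} h h' a b => by
    have h1 := h a (y * b)
    have h2 := h' (a * x) b
    simp only [mul_assoc] at h1 h2 ⊢
    exact h1.trans h2

theorem atom_rk : ∀ i : Fin 22, covB 0 i = true → 4 ≤ 3 + rkF i := by decide +kernel

theorem class_closed (C : List (List (Fin 22))) (hC : C ∈ classes)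
    {u v : FreeMonoid (Atoms Q)} (h : PresentedMonoid.mk (Rel col) u =
      PresentedMonoid.mk (Rel col) v) (hu : ind u.toList ∈ C) : ind v.toList ∈ C := by
  have h1 := PresentedMonoid.mk_eq_mk_iff.1 h
  have h2 : conGen (Rel col) ≤ conOf (fun w => ind w.toList ∈ C) := by
    refine Con.conGen_le.2 fun x y hxy => ?_
    obtain ⟨s, t, hs, ht, u, v, hu, hv⟩ := hxy
    intro a b
    have e1 := mem_allWords hu 3 (atom_rk _ ((atom_iff _).1 s.2))
    have e2 := mem_allWords hv 3 (atom_rk _ ((atom_iff _).1 t.2))
    have e3 := closed_table C hC s.1.i ((atom_iff _).1 s.2) t.1.i ((atom_iff _).1 t.2) _ e1 rfl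
      _ e2 rfl
    have e4 : col ⊥ s.1 hs = s := isPreUpho.1 s hs
    have e5 : col ⊥ t.1 ht = t := isPreUpho.1 t ht
    rw [e4, e5]
    have e6 : ∀ (s : Atoms Q) (u : List (Atoms Q)),
        ind (a * FreeMonoid.ofList (s :: u) * b).toList =
          ind a.toList ++ (s.1.i :: ind u) ++ ind b.toList := by
      intro s u
      simp [ind, FreeMonoid.toList_mul]
    constructor
    · intro h
      change ind _ ∈ C
      rw [e6]
      refine closedB_spec e3.1 _ _ ?_
      change ind _ ∈ C at h
      rwa [e6] at h
    · intro h
      change ind _ ∈ C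
      rw [e6]
      refine closedB_spec e3.2 _ _ ?_
      change ind _ ∈ C at h
      rwa [e6] at h
  have h3 := h2 h1 1 1
  simp only [one_mul, mul_one] at h3
  exact h3.1 hu

/-- the atom with index `i` -/
def at' (i : Fin 22) (h : covB 0 i = true) : Atoms Q :=
  ⟨⟨i⟩, (atom_iff _).2 h⟩

theorem chain2 (i j k : Fin 22) (s : Atoms Q) (h : covB i j = true)
    (hs : look colT i j = s.1.i) : ChainWord col ⟨i⟩ ⟨j⟩ [s] := by
  have h1 := ChainWord.cons (c := col) (x := ⟨i⟩) (y := ⟨j⟩) ((cov_iff _ _).2 h)
    (ChainWord.nil _)
  have h2 : col ⟨i⟩ ⟨j⟩ ((cov_iff _ _).2 h) = s := Subtype.ext (congrArg Q.mk hs)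
  rwa [h2] at h1

theorem rel2 (s t p q : Atoms Q) (j : Fin 22) (hj : look supT s.1.i t.1.i = j)
    (h1 : covB s.1.i j = true) (h2 : look colT s.1.i j = p.1.i)
    (h3 : covB t.1.i j = true) (h4 : look colT t.1.i j = q.1.i) :
    PresentedMonoid.mk (Rel col) (FreeMonoid.ofList [s, p]) =
      PresentedMonoid.mk (Rel col) (FreeMonoid.ofList [t, q]) := by
  have hs : ⊥ ⋖ s.1 := bot_covBy_iff.2 s.2
  have ht : ⊥ ⋖ t.1 := bot_covBy_iff.2 t.2
  have e : s.1 ⊔ t.1 = ⟨j⟩ := congrArg Q.mk hj
  have r := Rel.mk (c := col) s t hs ht [p] [q] (by rw [e]; exact chain2 _ _ 0 _ h1 h2)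
    (by rw [e]; exact chain2 _ _ 0 _ h3 h4)
  rw [isPreUpho.1 s hs, isPreUpho.1 t ht] at r
  exact PresentedMonoid.mk_eq_mk_of_rel r

/-- product of atoms in the monoid -/
def pr (w : List (Atoms Q)) : M col := PresentedMonoid.mk (Rel col) (FreeMonoid.ofList w)

theorem pr_append (u v : List (Atoms Q)) : pr (u ++ v) = pr u * pr v := by
  unfold pr
  rw [FreeMonoid.ofList_append, map_mul]

theorem pr_surj (m : M col) : ∃ w, pr w = m := by
  obtain ⟨w, hw⟩ := PresentedMonoid.surjective_mk m
  exact ⟨w.toList, hw⟩

theorem pr_class (C : List (List (Fin 22))) (hC : C ∈ classes) {u v : List (Atoms Q)}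
    (h : pr u = pr v) (hu : ind u ∈ C) : ind v ∈ C :=
  class_closed C hC (u := FreeMonoid.ofList u) (v := FreeMonoid.ofList v) h hu

/-- `x` -/
def X : Atoms Q := at' 1 (by decide +kernel)
/-- `s` -/
def S : Atoms Q := at' 2 (by decide +kernel)
/-- `t` -/
def T : Atoms Q := at' 3 (by decide +kernel)
/-- `a` -/
def A : Atoms Q := at' 4 (by decide +kernel)
/-- `b` -/
def B : Atoms Q := at' 5 (by decide +kernel)
/-- `e` -/
def E : Atoms Q := at' 6 (by decide +kernel)
/-- `f` -/
def F : Atoms Q := at' 7 (by decide +kernel)

theorem rel_xs : pr [X, A] = pr [S, E] :=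
  rel2 X S A E 8 (by decide +kernel) (by decide +kernel) (by decide +kernel) (by decide +kernel)
    (by decide +kernel)
theorem rel_xt : pr [X, B] = pr [T, E] :=
  rel2 X T B E 9 (by decide +kernel) (by decide +kernel) (by decide +kernel) (by decide +kernel)
    (by decide +kernel)
theorem rel_st : pr [S, F] = pr [T, F] :=
  rel2 S T F F 10 (by decide +kernel) (by decide +kernel) (by decide +kernel) (by decide +kernel)
    (by decide +kernel)
theorem rel_ab : pr [A, X] = pr [B, X] :=
  rel2 A B X X 11 (by decide +kernel) (by decide +kernel) (by decide +kernel) (by decide +kernel)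
    (by decide +kernel)

theorem rel_g : pr [S, E, X] = pr [T, E, X] := by
  have h1 : pr [S, E, X] = pr [S, E] * pr [X] := pr_append [S, E] [X]
  have h2 : pr [T, E, X] = pr [T, E] * pr [X] := pr_append [T, E] [X]
  rw [h1, h2, ← rel_xs, ← rel_xt, ← pr_append, ← pr_append]
  change pr ([X] ++ [A, X]) = pr ([X] ++ [B, X])
  rw [pr_append, pr_append, rel_ab]

theorem ind_append (u v : List (Atoms Q)) : ind (u ++ v) = ind u ++ ind v := by
  simp [ind]

/-- possible index words of common left divisors -/
theorem common {w w1 w2 : List (Fin 22)}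
    (h1 : w ++ w1 ∈ ([[2, 7], [3, 7]] : List (List (Fin 22))))
    (h2 : w ++ w2 ∈ ([[2, 6, 1], [1, 4, 1], [1, 5, 1], [3, 6, 1]] : List (List (Fin 22)))) :
    w = [] ∨ w = [2] ∨ w = [3] := by
  match w, h1, h2 with
  | [], _, _ => exact Or.inl rfl
  | [a], h1, _ =>
    simp only [List.singleton_append, List.mem_cons, List.cons.injEq, List.not_mem_nil,
      or_false] at h1
    rcases h1 with h1 | h1
    · exact Or.inr (Or.inl (by rw [h1.1]))
    · exact Or.inr (Or.inr (by rw [h1.1]))
  | a :: b :: w, h1, h2 =>
    exfalso
    simp only [List.cons_append, List.mem_cons, List.cons.injEq, List.not_mem_nil,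
      or_false] at h1 h2
    have h3 : b = 7 := by rcases h1 with h1 | h1 <;> exact h1.2.1
    rcases h2 with h2 | h2 | h2 | h2 <;> (have := h2.2.1; rw [h3] at this; exact absurd this (by decide))

theorem noGcd : ¬ ∃ d : M col, IsGCLD (pr [S, F]) (pr [S, E, X]) d := by
  rintro ⟨d, ⟨d1, hd1⟩, ⟨d2, hd2⟩, hd⟩
  obtain ⟨w, rfl⟩ := pr_surj d
  obtain ⟨w1, rfl⟩ := pr_surj d1
  obtain ⟨w2, rfl⟩ := pr_surj d2
  rw [← pr_append] at hd1 hd2
  have h1 := pr_class [[2, 7], [3, 7]] (by decide) hd1 (by decide)
  have h2 := pr_class [[2, 6, 1], [1, 4, 1], [1, 5, 1], [3, 6, 1]] (by decide) hd2 (by decide)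
  rw [ind_append] at h1 h2
  obtain ⟨a, ha⟩ := hd (pr [S]) ⟨pr [F], pr_append [S] [F]⟩ ⟨pr [E, X], pr_append [S] [E, X]⟩
  obtain ⟨b, hb⟩ := hd (pr [T]) ⟨pr [F], by rw [rel_st]; exact pr_append [T] [F]⟩
    ⟨pr [E, X], by rw [rel_g]; exact pr_append [T] [E, X]⟩
  obtain ⟨wa, rfl⟩ := pr_surj a
  obtain ⟨wb, rfl⟩ := pr_surj b
  rw [← pr_append] at ha hb
  rcases common h1 h2 with h | h | h
  · have := pr_class [[]] (by decide) ha (by rw [h]; decide)
    rw [ind_append] at this
    simp [ind] at this
  · have := pr_class [[2]] (by decide) hb (by rw [h]; decide)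
    rw [ind_append] at this
    simp [ind, T, at'] at this
  · have := pr_class [[3]] (by decide) ha (by rw [h]; decide)
    rw [ind_append] at this
    simp [ind, S, at'] at this

/-- **Disproof of Q1.** There are a finite graded lattice `L` (with rank function `rk`), whose `⊤`
is the join of its atoms, and a pre-upho coloring `c` of `L`, such that two elements of the monoid
`M` have no greatest common left divisor. -/
theorem result : ∃ (L : Type) (_ : Finite L) (_ : Lattice L) (_ : BoundedOrder L) (rk : L → ℕ)
    (c : Coloring L), IsRank rk ∧ TopIsJoinOfAtoms L ∧ IsPreUpho rk c ∧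
      ∃ u v : M c, ¬ ∃ d : M c, IsGCLD u v d :=
  ⟨Q, inferInstance, inferInstance, inferInstance, rk, col, isRank, topIsJoin, isPreUpho,
    pr [S, F], pr [S, E, X], noGcd⟩

end Pool.Agent.Results.MP_4cc90a_co.NoGcd
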